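import Pool.Agent.LibPSP.Proof

set_option autoImplicit false
open Filter Topology Set
open scoped ENNReal ZeroAtInfty
open Pool.Agent.LibPSP

namespace Pool.Agent.Results.MP_2e038a_an.PSPShift

/-- invertible bounded operators on `ℓ_p(ℤ)` -/
abbrev LpOp (𝕜 : Type) [RCLike 𝕜] (p : ℝ≥0∞) [Fact (1 ≤ p)] : Type :=
  lp (fun _ : ℤ => 𝕜) p ≃L[𝕜] lp (fun _ : ℤ => 𝕜) p

/-- invertible bounded operators on `c_0(ℤ)` -/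
abbrev C0Op (𝕜 : Type) [RCLike 𝕜] : Type := C₀(ℤ, 𝕜) ≃L[𝕜] C₀(ℤ, 𝕜)

/-- `T` is the weighted backward shift `B_w` on `ℓ_p(ℤ)` -/
def IsBwLp {𝕜 : Type} [RCLike 𝕜] {p : ℝ≥0∞} [Fact (1 ≤ p)] (w : ℤ → 𝕜) (T : LpOp 𝕜 p) : Prop :=
  ∀ x n, T x n = w (n + 1) * x (n + 1)

/-- `T` is the weighted backward shift `B_w` on `c_0(ℤ)` -/
def IsBwC0 {𝕜 : Type} [RCLike 𝕜] (w : ℤ → 𝕜) (T : C0Op 𝕜) : Prop :=
  ∀ x n, T x n = w (n + 1) * x (n + 1)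

/-- `T` has the periodic shadowing property on `ℓ_p(ℤ)` -/
def PSPLp {𝕜 : Type} [RCLike 𝕜] {p : ℝ≥0∞} [Fact (1 ≤ p)] (T : LpOp 𝕜 p) : Prop := PSP T

/-- `T` has the periodic shadowing property on `c_0(ℤ)` -/
def PSPC0 {𝕜 : Type} [RCLike 𝕜] (T : C0Op 𝕜) : Prop := PSP T

/-- For a bounded weight with `inf |w_n| > 0` the weighted backward shift has the periodic
shadowing property on `ℓ_p(ℤ)`, `1 ≤ p < ∞`, iff it has it on `c_0(ℤ)`, iff each half of the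
weight sequence is uniformly contracting or uniformly expanding. -/
theorem result (𝕜 : Type) [RCLike 𝕜] (w : ℤ → 𝕜) (hB : ∃ B, ∀ n, ‖w n‖ ≤ B)
    (hb : ∃ b > 0, ∀ n, b ≤ ‖w n‖) (p : ℝ≥0∞) [Fact (1 ≤ p)] (hp : p ≠ ∞) :
    ∃ (Tp : LpOp 𝕜 p) (T0 : C0Op 𝕜), IsBwLp w Tp ∧ IsBwC0 w T0 ∧
      (PSPLp Tp ↔ PSPC0 T0) ∧ (PSPLp Tp ↔ HalfHyperbolic w) := by
  obtain ⟨B, hB⟩ := hB
  obtain ⟨b, hb0, hb⟩ := hb
  obtain ⟨Tp, hTp⟩ := (lpSeq 𝕜 p hp).exists_shift w hB hb0 hb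
  obtain ⟨T0, hT0⟩ := (c0Seq 𝕜).exists_shift w hB hb0 hb
  have h1 : PSPLp Tp ↔ HalfHyperbolic w := hTp.psp_iff
  have h2 : PSPC0 T0 ↔ HalfHyperbolic w := hT0.psp_iff
  exact ⟨Tp, T0, hTp.act, hT0.act, h1.trans h2.symm, h1⟩

end Pool.Agent.Results.MP_2e038a_an.PSPShift
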